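import Pool.Agent.Helper70.OB.GoalsP
import Pool.Agent.Helper60.MM.PDer

/-!
# PL-EDGE: the boundary sphere is isolated in the support
-/

open MeasureTheory Set Metric Filter
open scoped ENNReal RealInnerProductSpace Topology
open Pool.Agent.Results.MP_91ee6f_gt
open Pool.Agent.Helper70.OB

namespace Pool.Agent.Helper96.PL

theorem point_mass_eq {n : ℕ} {τ : Measure (En n)} (hτ : Rot τ) {x y : En n} (h : ‖x‖ = ‖y‖) :
    τ {x} = τ {y} := by
  set g := (Submodule.span ℝ {x - y})ᗮ.reflection with hg
  have h1 : g x = y := Submodule.reflection_sub h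
  have h3 : τ.map g {y} = τ (g ⁻¹' {y}) :=
    (g.toHomeomorph.measurableEmbedding).map_apply τ {y}
  rw [hτ g] at h3
  have h4 : g ⁻¹' {y} = {x} := by
    ext z
    simp only [mem_preimage, mem_singleton_iff]
    rw [← h1]
    exact g.injective.eq_iff
  rw [h3, h4]

theorem point_null {n : ℕ} (hn : 2 ≤ n) {τ : Measure (En n)} [IsFiniteMeasure τ] (hτ : Rot τ)
    {x : En n} (hx : x ≠ 0) : τ {x} = 0 := by
  have hinf : (sphere (0 : En n) ‖x‖).Infinite := by
    have h1 : IsConnected (sphere (0 : En n) ‖x‖) := by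
      refine isConnected_sphere ?_ 0 (norm_nonneg x)
      have h2 := Module.finrank_eq_rank ℝ (En n)
      rw [finrank_euclideanSpace, Fintype.card_fin] at h2
      rw [← h2]
      exact_mod_cast hn
    refine h1.isPreconnected.infinite_of_nontrivial ?_
    refine ⟨x, by simp, -x, by simp, ?_⟩
    intro h
    have h3 : (2 : ℝ) • x = 0 := by
      rw [two_smul]
      nth_rewrite 2 [h]
      exact add_neg_cancel x
    rcases smul_eq_zero.1 h3 with h4 | h4
    · norm_num at h4
    · exact hx h4
  by_contra hne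
  obtain ⟨N, hN⟩ := ENNReal.exists_nat_mul_gt hne (measure_ne_top τ univ)
  obtain ⟨F, hF, hFc⟩ := hinf.exists_subset_card_eq N
  have h1 : ∑ y ∈ F, τ {y} = N * τ {x} := by
    have h2 : ∀ y ∈ F, τ {y} = τ {x} := by
      intro y hy
      refine point_mass_eq hτ ?_
      have := hF hy
      simpa using this
    rw [Finset.sum_congr rfl h2, Finset.sum_const, hFc, nsmul_eq_mul]
  have h3 : ∑ y ∈ F, τ {y} = τ F := by
    rw [sum_measure_singleton]
  have h4 : τ F ≤ τ univ := measure_mono (subset_univ _)
  rw [← h3, h1] at h4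
  exact absurd h4 (not_le.2 hN)

/-- The derivative of the potential of a rotation invariant measure along a ray. -/
theorem pot_deriv {n : ℕ} (hn : 2 ≤ n) {τ : Measure (En n)} [IsFiniteMeasure τ] (hτ : Rot τ)
    {e : En n} (he : ‖e‖ = 1) {r : ℝ} (hr : 0 < r) :
    HasDerivAt (fun t : ℝ => potential τ (t • e))
      (-∫ y, Real.exp (-dist (r • e) y) * inner ℝ (r • e - y) e / dist (r • e) y ∂τ) r := by
  have hne : r • e ≠ 0 := by
    intro h
    have := congrArg norm h
    rw [norm_smul, he, norm_zero, Real.norm_eq_abs, abs_of_pos hr] at this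
    linarith
  have hae : ∀ᵐ y ∂τ, y ≠ r • e := by
    have h0 := point_null hn hτ hne
    rw [ae_iff]
    convert h0 using 2
    ext y
    simp
  have hF : ∀ t : ℝ, Continuous fun y : En n => Real.exp (-dist (t • e) y) := fun t =>
    (continuous_const.dist continuous_id).neg.rexp
  have hbd : ∀ t : ℝ, ∀ y : En n, ‖Real.exp (-dist (t • e) y)‖ ≤ 1 := by
    intro t y
    rw [Real.norm_eq_abs, abs_of_pos (Real.exp_pos _)]
    exact Real.exp_le_one_iff.2 (by simp)
  have key := hasDerivAt_integral_of_dominated_loc_of_lip (μ := τ)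
    (F := fun (t : ℝ) (y : En n) => Real.exp (-dist (t • e) y)) (x₀ := r)
    (s := ball r 1) (bound := fun _ => (1 : ℝ))
    (F' := fun y => -(Real.exp (-dist (r • e) y) * inner ℝ (r • e - y) e / dist (r • e) y))
    (ball_mem_nhds r one_pos)
    (Filter.Eventually.of_forall fun t => (hF t).aestronglyMeasurable)
    (Integrable.of_bound (hF r).aestronglyMeasurable 1
      (Filter.Eventually.of_forall fun y => hbd r y))
    (Pool.Agent.Helper60.MM.meas_integrand e r).neg.aestronglyMeasurable
    (Filter.Eventually.of_forall fun y => by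
      rw [Real.nnabs_of_nonneg zero_le_one]
      refine LipschitzOnWith.of_dist_le_mul fun t₁ _ t₂ _ => ?_
      rw [Real.dist_eq, Real.dist_eq]
      have h1 := Pool.Agent.Helper60.MM.exp_lip (dist_nonneg (x := t₁ • e) (y := y))
        (dist_nonneg (x := t₂ • e) (y := y))
      have h2 : |dist (t₁ • e) y - dist (t₂ • e) y| ≤ |t₁ - t₂| := by
        refine (abs_dist_sub_le _ _ _).trans ?_
        rw [dist_eq_norm, ← sub_smul, norm_smul, he, mul_one, Real.norm_eq_abs]
      have h3 : ((Real.toNNReal 1 : NNReal) : ℝ) = 1 := by simp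
      rw [h3, one_mul]
      exact h1.trans h2)
    (integrable_const 1)
    (by
      filter_upwards [hae] with y hy
      exact Pool.Agent.Helper60.MM.hasDerivAt_exp_dist e y he r hy)
  have h2 := key.2
  rw [integral_neg] at h2
  exact h2

theorem inner_pos {n : ℕ} {e y : En n} (he : ‖e‖ = 1) {R : ℝ} (hR : 0 < R) (hy : ‖y‖ ≤ R)
    (hne : y ≠ R • e) : 0 < inner ℝ (R • e - y) e := by
  rw [inner_sub_left, real_inner_smul_left, real_inner_self_eq_norm_sq, he]
  by_contra hle
  push Not at hle
  have h1 : R ≤ inner ℝ y e := by linarith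
  have h2 : ‖y - R • e‖ ^ 2 ≤ 0 := by
    rw [norm_sub_sq_real, real_inner_smul_right, norm_smul, he, Real.norm_eq_abs, mul_one, sq_abs]
    have h3 : ‖y‖ ^ 2 ≤ R ^ 2 := by
      have := norm_nonneg y
      nlinarith
    nlinarith
  have h3 : ‖y - R • e‖ = 0 := by
    have := sq_nonneg ‖y - R • e‖
    have h4 : ‖y - R • e‖ ^ 2 = 0 := le_antisymm h2 this
    exact pow_eq_zero_iff (two_ne_zero) |>.1 h4
  exact hne (sub_eq_zero.1 (norm_eq_zero.1 h3))

/-- EDGE. -/
theorem edge : EDGE := by
  intro n hn τ R hR hfin hτ hτ0 hball e he hpot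
  have hne : R • e ≠ 0 := by
    intro h
    have := congrArg norm h
    rw [norm_smul, he, norm_zero, Real.norm_eq_abs, abs_of_pos hR] at this
    linarith
  have hder := pot_deriv hn hτ he hR
  have hae : ∀ᵐ y ∂τ, 0 < Real.exp (-dist (R • e) y) * inner ℝ (R • e - y) e /
      dist (R • e) y := by
    have h1 : ∀ᵐ y ∂τ, y ≠ R • e := by
      have h0 := point_null hn hτ hne
      rw [ae_iff]
      convert h0 using 2
      ext y
      simp
    have h2 : ∀ᵐ y ∂τ, ‖y‖ ≤ R := by
      rw [ae_iff]
      convert hball using 2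
      ext y
      simp
    filter_upwards [h1, h2] with y hy1 hy2
    have h3 := inner_pos he hR hy2 hy1
    have h4 : 0 < dist (R • e) y := dist_pos.2 (Ne.symm hy1)
    positivity
  have hint : Integrable (fun y => Real.exp (-dist (R • e) y) * inner ℝ (R • e - y) e /
      dist (R • e) y) τ :=
    Integrable.of_bound (Pool.Agent.Helper60.MM.meas_integrand e R).aestronglyMeasurable 1
      (Filter.Eventually.of_forall fun y => by
        rw [Real.norm_eq_abs]
        exact Pool.Agent.Helper60.MM.integrand_le e y he R)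
  have hpos : 0 < ∫ y, Real.exp (-dist (R • e) y) * inner ℝ (R • e - y) e /
      dist (R • e) y ∂τ := by
    rw [integral_pos_iff_support_of_nonneg_ae (hae.mono fun y hy => hy.le) hint]
    have h1 : Function.support (fun y => Real.exp (-dist (R • e) y) * inner ℝ (R • e - y) e /
      dist (R • e) y) =ᵐ[τ] univ := by
      rw [eventuallyEq_univ]
      filter_upwards [hae] with y hy
      exact hy.ne'
    rw [measure_congr h1]
    exact pos_iff_ne_zero.2 fun h => hτ0 (Measure.measure_univ_eq_zero.1 h)
  have hneg : (-∫ y, Real.exp (-dist (R • e) y) * inner ℝ (R • e - y) e /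
      dist (R • e) y ∂τ) < 0 := by linarith
  have hslope := (hasDerivAt_iff_tendsto_slope.1 hder).eventually (gt_mem_nhds hneg)
  have hleft : ∀ᶠ r in 𝓝[<] R, 1 < potential τ (r • e) := by
    have h1 : 𝓝[<] R ≤ 𝓝[≠] R := nhdsWithin_mono _ fun r hr => ne_of_lt hr
    filter_upwards [h1 hslope, self_mem_nhdsWithin] with r hr1 hr2
    have hr2' : r < R := hr2
    have hr3 : slope (fun t : ℝ => potential τ (t • e)) R r < 0 := hr1
    rw [slope_def_field] at hr3
    have hr4 : r - R < 0 := by linarith
    by_contra hle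
    push Not at hle
    have h5 : 0 ≤ (potential τ (r • e) - potential τ (R • e)) / (r - R) :=
      div_nonneg_of_nonpos (by linarith) hr4.le
    linarith
  obtain ⟨l, hl, hl'⟩ := mem_nhdsLT_iff_exists_Ioo_subset.1 hleft
  have hl1 : l < R := hl
  refine ⟨min (R - l) (R / 2), by
    refine lt_min (by linarith) (by linarith), ?_, ?_⟩
  · exact (min_le_right _ _).trans_lt (by linarith)
  · intro r hr1 hr2
    have h1 : l < r := by
      have := min_le_left (R - l) (R / 2)
      linarith
    exact hl' ⟨h1, hr2⟩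

end Pool.Agent.Helper96.PL
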