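import Pool.Agent.Helper84.PL.Goals

/-!
# Project PL: a forest is bipartite (`G_FOR`)
-/

set_option autoImplicit false

namespace Pool.Agent.Helper96.PL

open Pool.Agent.Helper84.PL

theorem exists_col (V : Type) (f : V → ℕ) (D : V → V → Prop) (h1 : ∀ x y, D x y → f x < f y)
    (h2 : ∀ x y z, D x y → D x z → y = z) (N : ℕ) (hN : ∀ x, f x < N) (n : ℕ) :
    ∃ col : V → Bool, ∀ x y, D x y → N ≤ f x + n → col x ≠ col y := by
  classical
  induction n with
  | zero =>
    refine ⟨fun _ => true, fun x y _ h => ?_⟩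
    have := hN x
    omega
  | succ n ih =>
    obtain ⟨col, hcol⟩ := ih
    refine ⟨fun x => if h : f x + (n + 1) = N ∧ ∃ y, D x y then !(col h.2.choose) else col x,
      fun x y hxy hx => ?_⟩
    have hf := h1 x y hxy
    have hy : ¬ (f y + (n + 1) = N ∧ ∃ z, D y z) := by
      rintro ⟨h, -⟩
      omega
    simp only [dif_neg hy]
    by_cases hc : f x + (n + 1) = N
    · have hx' : f x + (n + 1) = N ∧ ∃ z, D x z := ⟨hc, y, hxy⟩
      rw [dif_pos hx']
      have e : hx'.2.choose = y := h2 x _ _ hx'.2.choose_spec hxy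
      rw [e]
      cases col y <;> decide
    · rw [dif_neg fun h => hc h.1]
      exact hcol x y hxy (by omega)

theorem for_ : G_FOR := by
  intro V _ f D h1 h2
  obtain ⟨N, hN⟩ : ∃ N, ∀ x, f x < N :=
    ⟨Finset.univ.sup f + 1, fun x => Nat.lt_succ_of_le (Finset.le_sup (Finset.mem_univ x))⟩
  obtain ⟨col, hcol⟩ := exists_col V f D h1 h2 N hN N
  exact ⟨col, fun x y hxy => hcol x y hxy (by omega)⟩

end Pool.Agent.Helper96.PL
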